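import Mathlib
import Pool.Agent.H361R2.PP.Iface

/-!
Task PP-EQI of helper361: equidistribution of the integers in classes modulo `Wm X`.
-/

set_option autoImplicit false

open Finset

namespace Pool.Agent.H20R2.EQI

open Pool.Agent.H361R2.PP

/-- number of integers in `[X, 2X)` in a residue class -/
lemma cnt_class (X M v : ℕ) (hM : 0 < M) :
    |(((Ico X (2 * X)).filter (fun n => n ≡ v [MOD M])).card : ℝ) - (X : ℝ) / M| ≤ 1 := by
  have h := Nat.Ico_filter_modEq_card X (2 * X) hM v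
  set c := ((Ico X (2 * X)).filter (fun n => n ≡ v [MOD M])).card with hc
  set a : ℚ := (((2 * X : ℕ) : ℚ) - (v : ℚ)) / (M : ℚ) with ha
  set b : ℚ := ((X : ℚ) - (v : ℚ)) / (M : ℚ) with hb
  have hMq : (0 : ℚ) < M := by exact_mod_cast hM
  have hab : a - b = (X : ℚ) / M := by
    rw [ha, hb]; push_cast; field_simp; ring
  have hXM : (0 : ℚ) ≤ (X : ℚ) / M := by positivity
  have h1 := Int.le_ceil a
  have h2 := Int.ceil_lt_add_one a
  have h3 := Int.le_ceil b
  have h4 := Int.ceil_lt_add_one b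
  have hq : |(c : ℚ) - (X : ℚ) / M| ≤ 1 := by
    have hcq : (c : ℚ) = max ((⌈a⌉ : ℚ) - ⌈b⌉) 0 := by
      have := congrArg (fun z : ℤ => (z : ℚ)) h
      push_cast at this
      rw [← hab] at *
      convert this using 2
    rw [hcq, abs_le, ← hab]
    constructor
    · have := le_max_left ((⌈a⌉ : ℚ) - ⌈b⌉) 0
      linarith
    · have : max ((⌈a⌉ : ℚ) - ⌈b⌉) 0 ≤ a - b + 1 := by
        apply max_le
        · linarith
        · rw [hab]; linarith
      linarith
  have hr : ((|(c : ℚ) - (X : ℚ) / M| : ℚ) : ℝ) ≤ ((1 : ℚ) : ℝ) := by exact_mod_cast hq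
  push_cast at hr
  exact hr

lemma cop_W (X : ℕ) (D : Finset ℕ) (hD : ∀ p ∈ D, p.Prime ∧ HH X < p) :
    Nat.Coprime (Wm X) (∏ p ∈ D, p) := by
  apply Nat.Coprime.prod_right
  intro p hp
  obtain ⟨hpp, hlt⟩ := hD p hp
  unfold Wm primorial
  apply Nat.Coprime.prod_left
  intro q hq
  rw [mem_filter, mem_range] at hq
  rw [Nat.coprime_primes hq.2 hpp]
  omega

lemma modD (D : Finset ℕ) (hD : ∀ p ∈ D, p.Prime) (n r : ℕ) :
    (∀ p ∈ D, n % p = r % p) ↔ n ≡ r [MOD ∏ p ∈ D, p] := by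
  constructor
  · intro h
    rw [Nat.modEq_iff_dvd]
    push_cast
    apply Finset.prod_dvd_of_coprime
    · intro p hp q hq hne
      have : Nat.Coprime p q := (Nat.coprime_primes (hD p hp) (hD q hq)).2 hne
      exact (Nat.isCoprime_iff_coprime.2 this)
    · intro p hp
      exact (Nat.modEq_iff_dvd.1 (h p hp))
  · intro h p hp
    exact h.of_dvd (Finset.dvd_prod_of_mem _ hp)

lemma eqd (X b : ℕ) (hb : b < Wm X) (P : Finset ℕ) (hP : ∀ p ∈ P, p.Prime ∧ HH X < p) :
    Eqd none P ((Ico X (2 * X)).filter (fun n => n % Wm X = b)) ((X : ℝ) / Wm X) (fun _ => 1) := by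
  refine ⟨?_, fun _ => zero_le_one, ?_⟩
  · intro n _ p _ a ha
    simp at ha
  · intro D hD r _
    have hDp : ∀ p ∈ D, p.Prime ∧ HH X < p := fun p hp => hP p (hD hp)
    have hcop := cop_W X D hDp
    have hWpos : 0 < Wm X := primorial_pos _
    have hDpos : 0 < ∏ p ∈ D, p := Finset.prod_pos (fun p hp => (hDp p hp).1.pos)
    obtain ⟨v, hv1, hv2⟩ := Nat.chineseRemainder hcop b r
    have hset : (((Ico X (2 * X)).filter (fun n => n % Wm X = b)).filter
        (fun n => ∀ p ∈ D, n % p = r % p)) =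
        (Ico X (2 * X)).filter (fun n => n ≡ v [MOD Wm X * ∏ p ∈ D, p]) := by
      rw [filter_filter]
      apply filter_congr
      intro n _
      rw [modD D (fun p hp => (hDp p hp).1) n r, ← Nat.modEq_and_modEq_iff_modEq_mul hcop]
      have hbb : b % Wm X = b := Nat.mod_eq_of_lt hb
      constructor
      · rintro ⟨h1, h2⟩
        refine ⟨?_, h2.trans hv2.symm⟩
        have : n ≡ b [MOD Wm X] := by unfold Nat.ModEq; rw [h1, hbb]
        exact this.trans hv1.symm
      · rintro ⟨h1, h2⟩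
        refine ⟨?_, h2.trans hv2⟩
        have : n ≡ b [MOD Wm X] := h1.trans hv1
        unfold Nat.ModEq at this
        rw [this, hbb]
    rw [hset]
    have hph : ∏ p ∈ D, ph none p = ((∏ p ∈ D, p : ℕ) : ℝ) := by
      push_cast
      apply prod_congr rfl
      intro p _
      simp [ph]
    have h := cnt_class X (Wm X * ∏ p ∈ D, p) v (Nat.mul_pos hWpos hDpos)
    rw [hph, div_div, ← Nat.cast_mul]
    exact h

/-- `K1^|D| ≤ K1^P0 (∏ D)^ε` -/
lemma pow_card_le (K1 : ℝ) (hK1 : 1 ≤ K1) (ε : ℝ) (P0 : ℕ)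
    (hP0 : ∀ p : ℕ, P0 ≤ p → K1 ≤ (p : ℝ) ^ ε) (hε : 0 ≤ ε) (D : Finset ℕ)
    (hD : ∀ p ∈ D, 1 ≤ p) :
    K1 ^ D.card ≤ K1 ^ P0 * (∏ p ∈ D, (p : ℝ)) ^ ε := by
  have h1 : K1 ^ D.card ≤ ∏ p ∈ D, ((if p < P0 then K1 else 1) * (p : ℝ) ^ ε) := by
    rw [← prod_const]
    apply prod_le_prod
    · intro i _; linarith
    · intro p hp
      have hp1 : (1 : ℝ) ≤ (p : ℝ) ^ ε := Real.one_le_rpow (by exact_mod_cast hD p hp) hε
      split_ifs with h
      · nlinarith
      · rw [one_mul]; exact hP0 p (not_lt.1 h)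
  refine h1.trans ?_
  rw [prod_mul_distrib, Real.finsetProd_rpow _ _ (fun p _ => by positivity)]
  apply mul_le_mul_of_nonneg_right _ (by positivity)
  rw [prod_ite, prod_const, prod_const_one, mul_one]
  apply pow_le_pow_right₀ hK1
  calc (D.filter (fun p => p < P0)).card ≤ (range P0).card := by
        apply card_le_card
        intro p hp
        rw [mem_filter] at hp
        exact mem_range.2 hp.2
    _ = P0 := card_range _

lemma card_D (P : Finset ℕ) (hP : ∀ p ∈ P, p.Prime) (Y : ℝ) :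
    ((P.powerset.filter (fun D : Finset ℕ => ∏ p ∈ D, (p : ℝ) ≤ Y)).card : ℝ) ≤ max Y 0 := by
  have h1 : (P.powerset.filter (fun D : Finset ℕ => ∏ p ∈ D, (p : ℝ) ≤ Y)).card ≤
      (Icc 1 ⌊Y⌋₊).card := by
    apply card_le_card_of_injOn (fun D : Finset ℕ => ∏ p ∈ D, p)
    · intro D hD
      rw [mem_coe, mem_filter, mem_powerset] at hD
      rw [mem_coe, mem_Icc]
      have hpos : 0 < ∏ p ∈ D, p := Finset.prod_pos (fun p hp => (hP p (hD.1 hp)).pos)
      refine ⟨hpos, ?_⟩
      apply Nat.le_floor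
      push_cast
      exact hD.2
    · intro D hD D' hD' h
      rw [mem_coe, mem_filter, mem_powerset] at hD hD'
      have e1 := Nat.primeFactors_prod (fun p hp => hP p (hD.1 hp))
      have e2 := Nat.primeFactors_prod (fun p hp => hP p (hD'.1 hp))
      rw [← e1, ← e2]
      exact congrArg Nat.primeFactors h
  rw [Nat.card_Icc, Nat.add_sub_cancel] at h1
  have h2 : ((P.powerset.filter (fun D : Finset ℕ => ∏ p ∈ D, (p : ℝ) ≤ Y)).card : ℝ) ≤
      (⌊Y⌋₊ : ℝ) := by exact_mod_cast h1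
  refine h2.trans ?_
  rcases le_or_gt 0 Y with h | h
  · exact (Nat.floor_le h).trans (le_max_left _ _)
  · rw [Nat.floor_of_nonpos h.le]; simp

lemma W_le (X : ℕ) (hX : 16 ≤ X) : (Wm X : ℝ) ≤ Real.log X := by
  have hX' : (16 : ℝ) ≤ X := by exact_mod_cast hX
  have hlog : 1 ≤ Real.log X := by
    rw [Real.le_log_iff_exp_le (by linarith)]
    have := Real.exp_one_lt_d9
    linarith
  have hll : 0 ≤ Real.log (Real.log X) := Real.log_nonneg hlog
  have h1 : (Wm X : ℝ) ≤ (4 : ℝ) ^ (HH X) := by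
    unfold Wm
    exact_mod_cast primorial_le_four_pow (HH X)
  refine h1.trans ?_
  have h2 : ((HH X : ℕ) : ℝ) ≤ Real.log (Real.log X) / 4 := by
    unfold HH
    exact Nat.floor_le (by positivity)
  have h4 : Real.log 4 ≤ 4 := by
    have := Real.log_le_sub_one_of_pos (show (0 : ℝ) < 4 by norm_num)
    linarith
  have h40 : 0 ≤ Real.log 4 := Real.log_nonneg (by norm_num)
  calc (4 : ℝ) ^ (HH X) = Real.exp (Real.log 4 * (HH X : ℕ)) := by
        rw [mul_comm, Real.exp_nat_mul, Real.exp_log (by norm_num)]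
    _ ≤ Real.exp (Real.log (Real.log X)) := by
        apply Real.exp_le_exp.2
        nlinarith
    _ = Real.log X := Real.exp_log (by linarith)

lemma ev_large (C : ℝ) (B : ℕ) (ε : ℝ) (hε : 0 < ε) :
    ∃ X₀ : ℕ, ∀ X : ℕ, X₀ ≤ X → C * Real.log X ^ B ≤ (X : ℝ) ^ ε := by
  have h1 : Filter.Tendsto (fun x : ℝ => C * (Real.log x ^ B / x ^ ε)) Filter.atTop (nhds 0) := by
    have h2 := (isLittleO_log_rpow_rpow_atTop (B : ℝ) hε).tendsto_div_nhds_zero
    have h3 := h2.const_mul C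
    rw [mul_zero] at h3
    refine h3.congr ?_
    intro x
    rw [Real.rpow_natCast]
  have h2 := h1.eventually_lt_const (show (0 : ℝ) < 1 by norm_num)
  have h3 := tendsto_natCast_atTop_atTop.eventually (h2.and (Filter.eventually_gt_atTop (0 : ℝ)))
  obtain ⟨X₀, hX₀⟩ := Filter.eventually_atTop.1 h3
  refine ⟨X₀, fun X hX => ?_⟩
  obtain ⟨h4, h5⟩ := hX₀ X hX
  have h6 : 0 < (X : ℝ) ^ ε := Real.rpow_pos_of_pos h5 _
  rw [← mul_div_assoc, div_lt_one h6] at h4
  exact h4.le

end Pool.Agent.H20R2.EQI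

namespace Pool.Agent.H20R2

open Pool.Agent.H20R2.EQI Pool.Agent.H361R2.PP

theorem eqInt : Pool.Agent.H361R2.PP.EqInt := by
  intro K A θ hθ
  set ε := θ / 2 with hε
  have hε0 : 0 < ε := by positivity
  set K1 : ℝ := (K : ℝ) + 1 with hK1
  have hK11 : 1 ≤ K1 := by rw [hK1]; have : (0 : ℝ) ≤ K := Nat.cast_nonneg K; linarith
  -- the threshold for large primes
  obtain ⟨P0, hP0⟩ : ∃ P0 : ℕ, ∀ p : ℕ, P0 ≤ p → K1 ≤ (p : ℝ) ^ ε := by
    have h1 : Filter.Tendsto (fun p : ℕ => (p : ℝ) ^ ε) Filter.atTop Filter.atTop :=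
      (tendsto_rpow_atTop hε0).comp tendsto_natCast_atTop_atTop
    exact Filter.eventually_atTop.1 (h1.eventually_ge_atTop K1)
  obtain ⟨X₁, hX₁⟩ := ev_large (K1 ^ P0) (A + 1) ε hε0
  refine ⟨max X₁ 16, fun X hX b hb => ⟨fun _ => 1, ?_, ?_⟩⟩
  · apply eqd X b hb
    intro p hp
    rw [mem_filter, PX, mem_filter] at hp
    exact hp.1.2
  · have hX16 : 16 ≤ X := (le_max_right _ _).trans hX
    have hX' : (16 : ℝ) ≤ X := by exact_mod_cast hX16
    have hX0 : (0 : ℝ) < X := by linarith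
    have hlog : 1 ≤ Real.log X := by
      rw [Real.le_log_iff_exp_le (by linarith)]
      have := Real.exp_one_lt_d9
      linarith
    have hev := hX₁ X ((le_max_left _ _).trans hX)
    have hW := W_le X hX16
    have hWpos : (0 : ℝ) < Wm X := by exact_mod_cast (primorial_pos _)
    have hPX : ∀ p ∈ PX X, p.Prime := by
      intro p hp
      rw [PX, mem_filter] at hp
      exact hp.2.1
    have hY0 : 0 < (X : ℝ) ^ (1 - θ) := Real.rpow_pos_of_pos hX0 _
    calc ∑ D ∈ (PX X).powerset.filter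
            (fun D : Finset ℕ => ∏ p ∈ D, (p : ℝ) ≤ (X : ℝ) ^ (1 - θ)), (K : ℝ) ^ D.card * 1
        ≤ ∑ D ∈ (PX X).powerset.filter
            (fun D : Finset ℕ => ∏ p ∈ D, (p : ℝ) ≤ (X : ℝ) ^ (1 - θ)),
              K1 ^ P0 * ((X : ℝ) ^ (1 - θ)) ^ ε := by
          apply sum_le_sum
          intro D hD
          rw [mem_filter, mem_powerset] at hD
          rw [mul_one]
          have h1 : (K : ℝ) ^ D.card ≤ K1 ^ D.card :=
            pow_le_pow_left₀ (Nat.cast_nonneg K) (by rw [hK1]; linarith) _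
          have h2 := pow_card_le K1 hK11 ε P0 hP0 hε0.le D
            (fun p hp => (hPX p (hD.1 hp)).one_le)
          refine h1.trans (h2.trans ?_)
          apply mul_le_mul_of_nonneg_left _ (by positivity)
          exact Real.rpow_le_rpow (by positivity) hD.2 hε0.le
      _ = (((PX X).powerset.filter
            (fun D : Finset ℕ => ∏ p ∈ D, (p : ℝ) ≤ (X : ℝ) ^ (1 - θ))).card : ℝ) *
              (K1 ^ P0 * ((X : ℝ) ^ (1 - θ)) ^ ε) := by
          rw [sum_const, nsmul_eq_mul]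
      _ ≤ (X : ℝ) ^ (1 - θ) * (K1 ^ P0 * ((X : ℝ) ^ (1 - θ)) ^ ε) := by
          apply mul_le_mul_of_nonneg_right _ (by positivity)
          refine (card_D (PX X) hPX _).trans ?_
          rw [max_eq_left hY0.le]
      _ = K1 ^ P0 * (X : ℝ) ^ ((1 - θ) + (1 - θ) * ε) := by
          rw [Real.rpow_add hX0, Real.rpow_mul hX0.le]; ring
      _ ≤ K1 ^ P0 * (X : ℝ) ^ (1 - ε) := by
          apply mul_le_mul_of_nonneg_left _ (by positivity)
          apply Real.rpow_le_rpow_of_exponent_le (by linarith)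
          rw [hε]; nlinarith
      _ ≤ (X : ℝ) / Wm X / Real.log X ^ A := by
          rw [div_div, le_div_iff₀ (by positivity)]
          have h1 : (X : ℝ) = (X : ℝ) ^ (1 - ε) * (X : ℝ) ^ ε := by
            rw [← Real.rpow_add hX0]; simp
          have h2 : (Wm X : ℝ) * Real.log X ^ A ≤ Real.log X ^ (A + 1) := by
            rw [pow_succ, mul_comm]
            exact mul_le_mul_of_nonneg_left hW (by positivity)
          calc K1 ^ P0 * (X : ℝ) ^ (1 - ε) * (Wm X * Real.log X ^ A)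
              ≤ K1 ^ P0 * (X : ℝ) ^ (1 - ε) * Real.log X ^ (A + 1) := by
                apply mul_le_mul_of_nonneg_left h2 (by positivity)
            _ = (X : ℝ) ^ (1 - ε) * (K1 ^ P0 * Real.log X ^ (A + 1)) := by ring
            _ ≤ (X : ℝ) ^ (1 - ε) * (X : ℝ) ^ ε :=
                mul_le_mul_of_nonneg_left hev (by positivity)
            _ = X := h1.symm

end Pool.Agent.H20R2
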